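import Mathlib

/-!
# Flips of low codimension: definitions and proofs (MP_a06248_ag)
-/

set_option autoImplicit false

universe u

namespace Pool.Agent.Helper10.FL

/-- The projective `ℚ`-Gorenstein varieties with terminal singularities whose function field is a fixed
field `K`, of transcendence degree `n` over `ℂ`, the divisors over them, and their flips. -/
structure Varieties where
  /-- the dimension of the varieties -/
  n : ℕ
  /-- the projective `ℚ`-Gorenstein varieties with terminal singularities and function field `K` -/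
  Obj : Type u
  /-- the prime divisors over the varieties: the divisorial valuations of `K` -/
  Div : Type u
  /-- the points of the scheme `X`; they are the generic points of the closed subvarieties of `X` -/
  Pt : Obj → Type u
  /-- `InClosure X x y`: the point `x` of `X` is in the closure of the point `y` -/
  InClosure : (X : Obj) → Pt X → Pt X → Prop
  /-- the codimension of the closure of a point of `X` -/
  codim : (X : Obj) → Pt X → ℕ
  /-- the local ring of the point of `X` is regular -/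
  Regular : (X : Obj) → Pt X → Prop
  /-- the centre of a divisor on `X` -/
  center : (X : Obj) → Div → Pt X
  /-- the discrepancy of a divisor with respect to `X` -/
  disc : Obj → Div → ℝ
  /-- `rank X c`: the dimension of the subspace of `H_{2n-2c}(X, ℚ)` which is generated by the classes
  of the closed subvarieties of codimension `c` -/
  rank : Obj → ℕ → ℕ
  /-- `Flip X Y E E'`: `Y` is the flip of the contraction `X → Z` of a `K_X`-negative extremal ray (`Z` is
  not `ℚ`-Gorenstein), `E` is the set of the points of the exceptional locus of `X → Z`, and `E'` is the set of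
  the points of `Y` over the image of `E` in `Z` (if `X → Z` is small this is the exceptional locus of
  `Y → Z`) -/
  Flip : (X Y : Obj) → Set (Pt X) → Set (Pt Y) → Prop

/-- The facts which are used about the varieties. -/
structure VarietyFacts (T : Varieties.{u}) (X : T.Obj) : Prop where
  /-- a point is in its closure -/
  refl : ∀ x, T.InClosure X x x
  /-- terminal singularities: the discrepancies of the exceptional divisors are positive -/
  terminal : ∀ F, 2 ≤ T.codim X (T.center X F) → 0 < T.disc X F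
  /-- terminal varieties are regular in codimension two -/
  regular : ∀ x, T.codim X x ≤ 2 → T.Regular X x
  /-- the blowing up of the closure of a regular point of codimension `c` gives a divisor of
  discrepancy `c - 1` -/
  blowup : ∀ x, 2 ≤ T.codim X x → T.Regular X x →
    ∃ F, T.center X F = x ∧ T.disc X F = T.codim X x - 1
  /-- a singular point of codimension three is the centre of a divisor of discrepancy `1 / r`, where
  `r` is its index (Markushevich for `r = 1`, Kawamata for `r ≥ 2`) -/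
  threefold : ∀ x, T.codim X x = 3 → ¬ T.Regular X x →
    ∃ (F : T.Div) (r : ℕ), 1 ≤ r ∧ T.center X F = x ∧ T.disc X F = 1 / r
  /-- let `S` be the set of the exceptional divisors of a log resolution `V → X` which is an isomorphism
  over the regular points, and let `F` be a divisor with the centre `x` on `X` of codimension at least
  two which is not in `S`. If the centre of `F` on `V` is in no element of `S` then the discrepancy of
  `F` is at least the codimension of `x` minus one, and if it is in `D` then it is at least one more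
  than the discrepancy of `D` -/
  log_resolution : ∃ S : Set T.Div, S.Finite ∧ ∀ F, 2 ≤ T.codim X (T.center X F) → F ∉ S →
    (T.codim X (T.center X F) : ℝ) - 1 ≤ T.disc X F ∨
    ∃ D ∈ S, ¬ T.Regular X (T.center X D) ∧ T.InClosure X (T.center X F) (T.center X D) ∧
      T.disc X D + 1 ≤ T.disc X F

/-- The facts which are used about a flip. -/
structure FlipFacts (T : Varieties.{u}) (X Y : T.Obj) (E : Set (T.Pt X)) (E' : Set (T.Pt Y)) :
    Prop where
  /-- the contraction `Y → Z` is small (`X → Z` need not be small, if `X` is not `ℚ`-factorial) -/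
  small' : ∀ x ∈ E', 2 ≤ T.codim Y x
  /-- `E` and `E'` are the preimages of the image of `E` in `Z` -/
  center_iff : ∀ F, T.center Y F ∈ E' ↔ T.center X F ∈ E
  /-- the discrepancies of the divisors with centre in `E` increase (negativity lemma) -/
  disc_lt : ∀ F, T.center X F ∈ E → T.disc X F < T.disc Y F
  /-- `X` and `Y` are isomorphic outside `E` and `E'` -/
  disc_eq : ∀ F, T.center X F ∉ E → T.disc Y F = T.disc X F
  codim_eq : ∀ F, T.center X F ∉ E → T.codim Y (T.center Y F) = T.codim X (T.center X F)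
  regular_iff : ∀ F, T.center X F ∉ E →
    (T.Regular Y (T.center Y F) ↔ T.Regular X (T.center X F))
  closure_iff : ∀ F G, T.center X F ∉ E → T.center X G ∉ E →
    (T.InClosure Y (T.center Y F) (T.center Y G) ↔ T.InClosure X (T.center X F) (T.center X G))
  /-- `dim E + dim E' ≥ n - 1` (Kawamata, Matsuda and Matsuki; clear if `E` contains a divisor) -/
  dimension : ∀ m m' : ℕ, (∀ x ∈ E, m ≤ T.codim X x) → (∀ x ∈ E', m' ≤ T.codim Y x) →
    m + m' ≤ T.n + 1
  /-- if `dim E' < n - c` then the algebraic classes in `H_{2n-2c}(Y)` and in the Borel-Moore homology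
  of `Y \ E' = X \ E` agree, and those of `X` are mapped onto the latter; a subvariety of codimension
  `c` in `E` has a class different from zero, as `X` is projective, and it is mapped to zero -/
  rank_le : ∀ c, (∀ x ∈ E', c < T.codim Y x) → T.rank Y c ≤ T.rank X c
  rank_lt : ∀ c, (∀ x ∈ E', c < T.codim Y x) → (∃ x ∈ E, T.codim X x ≤ c) →
    T.rank Y c < T.rank X c

/-- The facts which are used. -/
structure Facts (T : Varieties.{u}) : Prop where
  variety : ∀ X, VarietyFacts T X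
  flip : ∀ X Y E E', T.Flip X Y E E' → FlipFacts T X Y E E'

/-- An infinite sequence of flips `X 0, X 1, X 2, …`; the loci of the `i`-th flip are `E i` in `X i` and `E' i`
in `X (i + 1)`. -/
structure FlipSequence (T : Varieties.{u}) where
  X : ℕ → T.Obj
  E : (i : ℕ) → Set (T.Pt (X i))
  E' : (i : ℕ) → Set (T.Pt (X (i + 1)))
  flip : ∀ i, T.Flip (X i) (X (i + 1)) (E i) (E' i)

/-- The union of the centres on `X` of the divisors with discrepancy `< k` and with centre in the
singular locus of `X`. -/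
def Bad (T : Varieties.{u}) (k : ℕ) (X : T.Obj) : Set (T.Pt X) :=
  {x | ∃ F, ¬ T.Regular X (T.center X F) ∧ T.disc X F < k ∧ T.InClosure X x (T.center X F)}


/-- From `M` on. -/
def FlipSequence.shift {T : Varieties.{u}} (s : FlipSequence T) (M : ℕ) : FlipSequence T where
  X i := s.X (M + i)
  E i := s.E (M + i)
  E' i := s.E' (M + i)
  flip i := s.flip (M + i)

section aux

lemma eventually_const (f : ℕ → ℕ) (M : ℕ) (h : ∀ i ≥ M, f (i + 1) ≤ f i) :
    ∃ N ≥ M, ∀ i ≥ N, f (i + 1) = f i := by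
  have hne : (f '' Set.Ici M).Nonempty := ⟨f M, M, Set.mem_Ici.2 le_rfl, rfl⟩
  obtain ⟨N, hN, hN'⟩ := Nat.sInf_mem hne
  have h1 : ∀ i ≥ N, f i = f N := by
    intro i hi
    have h2 : f i ≤ f N := by
      induction i, hi using Nat.le_induction with
      | base => exact le_rfl
      | succ j hj ih => exact (h j (le_trans (Set.mem_Ici.1 hN) hj)).trans ih
    have h3 : f N ≤ f i := by
      rw [hN']
      exact Nat.sInf_le ⟨i, Set.mem_Ici.2 (le_trans (Set.mem_Ici.1 hN) hi), rfl⟩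
    omega
  refine ⟨N, hN, fun i hi => ?_⟩
  rw [h1 i hi, h1 (i + 1) (by omega)]

lemma eventually_subset {α : Type*} (A : ℕ → Set α) (M : ℕ) (hf : ∀ i ≥ M, (A i).Finite)
    (h : ∀ i ≥ M, A (i + 1) ⊆ A i) : ∃ N ≥ M, ∀ i ≥ N, A i ⊆ A (i + 1) := by
  obtain ⟨N, hN, h1⟩ := eventually_const (fun i => (A i).ncard) M fun i hi =>
    Set.ncard_le_ncard (h i hi) (hf i hi)
  refine ⟨N, hN, fun i hi => ?_⟩
  exact (Set.eq_of_subset_of_ncard_le (h i (by omega)) (h1 i hi).ge (hf i (by omega))).ge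

lemma pigeon {α : Type*} {A : Set α} (hA : A.Finite) (P : ℕ → α → Prop)
    (h : ∀ N, ∃ i ≥ N, ∃ F ∈ A, P i F) : ∃ F, {i | P i F}.Infinite := by
  by_contra hcon
  push Not at hcon
  have h1 : (⋃ F ∈ A, {i | P i F}).Finite := hA.biUnion fun F _ => hcon F
  obtain ⟨N, hN⟩ := h1.bddAbove
  obtain ⟨i, hi, F, hF, hP⟩ := h (N + 1)
  have h2 : i ≤ N := hN (Set.mem_biUnion hF hP)
  omega

/-- There is no infinite increasing sequence of the numbers `1 / r`. -/
lemma no_infinite {J : Set ℕ} (hJ : J.Infinite) (a : ℕ → ℝ) (r : ℕ → ℕ) (hr : ∀ i ∈ J, 1 ≤ r i)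
    (ha : ∀ i ∈ J, ∀ j ∈ J, i < j → a i < a j) (h : ∀ i ∈ J, a i = 1 / (r i : ℝ)) : False := by
  have hne : (r '' J).Nonempty := hJ.nonempty.image r
  obtain ⟨i, hi, hi'⟩ := Nat.sInf_mem hne
  obtain ⟨j, hj, hij⟩ := hJ.exists_gt i
  have h1 : r i ≤ r j := by
    rw [hi']
    exact Nat.sInf_le ⟨j, hj, rfl⟩
  have h2 := ha i hi j hj hij
  rw [h i hi, h j hj] at h2
  have h3 : (0 : ℝ) < r i := by exact_mod_cast hr i hi
  have h4 : (r i : ℝ) ≤ r j := by exact_mod_cast h1
  have h5 := one_div_le_one_div_of_le h3 h4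
  linarith

end aux

section proofs

variable {T : Varieties.{u}} (hT : Facts T) (s : FlipSequence T)

include hT

lemma disc_succ (i : ℕ) (F : T.Div) : T.disc (s.X i) F ≤ T.disc (s.X (i + 1)) F := by
  have h := hT.flip _ _ _ _ (s.flip i)
  by_cases hF : T.center (s.X i) F ∈ s.E i
  · exact (h.disc_lt F hF).le
  · exact (h.disc_eq F hF).ge

lemma disc_mono (F : T.Div) {i j : ℕ} (hij : i ≤ j) :
    T.disc (s.X i) F ≤ T.disc (s.X j) F :=
  monotone_nat_of_le_succ (f := fun i => T.disc (s.X i) F) (fun i => disc_succ hT s i F) hij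

/-- If the points of `E i` have codimension at least `m`, then a centre of codimension at least `m` on
`X (i + 1)` comes from a centre of codimension at least `m` on `X i`. -/
lemma codim_le {i m : ℕ} (hm : ∀ x ∈ s.E i, m ≤ T.codim (s.X i) x) {F : T.Div}
    (hF : m ≤ T.codim (s.X (i + 1)) (T.center (s.X (i + 1)) F)) :
    m ≤ T.codim (s.X i) (T.center (s.X i) F) := by
  have h := hT.flip _ _ _ _ (s.flip i)
  by_cases hE : T.center (s.X i) F ∈ s.E i
  · exact hm _ hE
  · rwa [h.codim_eq F hE] at hF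

lemma codim_two_le (hs : ∀ i, ∀ x ∈ s.E i, 2 ≤ T.codim (s.X i) x) {i : ℕ} {F : T.Div}
    (hF : 2 ≤ T.codim (s.X (i + 1)) (T.center (s.X (i + 1)) F)) :
    2 ≤ T.codim (s.X i) (T.center (s.X i) F) :=
  codim_le hT s (hs i) hF

/-- If the codimension of `E' i` is eventually more than `c`, then so is the codimension of `E i`. -/
lemma codim_E {c M : ℕ} (h : ∀ i ≥ M, ∀ x ∈ s.E' i, c < T.codim (s.X (i + 1)) x) :
    ∃ N ≥ M, ∀ i ≥ N, ∀ x ∈ s.E i, c < T.codim (s.X i) x := by
  obtain ⟨N, hN, h1⟩ := eventually_const (fun i => T.rank (s.X i) c) M fun i hi =>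
    (hT.flip _ _ _ _ (s.flip i)).rank_le c (h i hi)
  refine ⟨N, hN, fun i hi x hx => ?_⟩
  by_contra hc
  have h2 := (hT.flip _ _ _ _ (s.flip i)).rank_lt c (h i (by omega)) ⟨x, hx, not_lt.1 hc⟩
  exact h2.ne (h1 i hi)

/-- The exceptional divisors of discrepancy `< 1`. -/
lemma finite_lt_one (X : T.Obj) :
    {F | 2 ≤ T.codim X (T.center X F) ∧ T.disc X F < 1}.Finite := by
  obtain ⟨S, hS, h⟩ := (hT.variety X).log_resolution
  refine hS.subset fun F hF => ?_
  by_contra hFS
  obtain ⟨h1, h2⟩ := hF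
  rcases h F h1 hFS with h3 | ⟨D, -, h4, -, h5⟩
  · have : (2 : ℝ) ≤ T.codim X (T.center X F) := by exact_mod_cast h1
    linarith
  · have h6 : 2 ≤ T.codim X (T.center X D) := by
      by_contra h7
      exact h4 ((hT.variety X).regular _ (by omega))
    have := (hT.variety X).terminal D h6
    linarith

/-- The divisors of discrepancy at most `1` whose centre has codimension at least three. -/
lemma finite_le_one (X : T.Obj) :
    {F | 3 ≤ T.codim X (T.center X F) ∧ T.disc X F ≤ 1}.Finite := by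
  obtain ⟨S, hS, h⟩ := (hT.variety X).log_resolution
  refine hS.subset fun F hF => ?_
  by_contra hFS
  obtain ⟨h1, h2⟩ := hF
  rcases h F (by omega) hFS with h3 | ⟨D, -, h4, -, h5⟩
  · have : (3 : ℝ) ≤ T.codim X (T.center X F) := by exact_mod_cast h1
    linarith
  · have h6 : 2 ≤ T.codim X (T.center X D) := by
      by_contra h7
      exact h4 ((hT.variety X).regular _ (by omega))
    have := (hT.variety X).terminal D h6
    linarith

/-- A point of `E' i` which is the centre of `F`: the discrepancy of `F` increases. -/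
lemma disc_lt' {i : ℕ} {F : T.Div} (hx : T.center (s.X (i + 1)) F ∈ s.E' i) :
    T.center (s.X i) F ∈ s.E i ∧ T.disc (s.X i) F < T.disc (s.X (i + 1)) F := by
  have h := hT.flip _ _ _ _ (s.flip i)
  have h1 := (h.center_iff F).1 hx
  exact ⟨h1, h.disc_lt F h1⟩

/-- Only finitely many flips with `E'` of codimension two. -/
lemma two_lt_E' (hs : ∀ i, ∀ x ∈ s.E i, 2 ≤ T.codim (s.X i) x) : ∃ N, ∀ i ≥ N, ∀ x ∈ s.E' i, 2 < T.codim (s.X (i + 1)) x := by
  obtain ⟨N, -, h1⟩ := eventually_subset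
    (fun i => {F | 2 ≤ T.codim (s.X i) (T.center (s.X i) F) ∧ T.disc (s.X i) F < 1}) 0
    (fun i _ => finite_lt_one hT (s.X i))
    (fun i _ F hF => ⟨codim_two_le hT s hs hF.1, (disc_succ hT s i F).trans_lt hF.2⟩)
  refine ⟨N, fun i hi x hx => ?_⟩
  by_contra hc
  have h := hT.flip _ _ _ _ (s.flip i)
  have hY := hT.variety (s.X (i + 1))
  have hx2 : T.codim (s.X (i + 1)) x = 2 := le_antisymm (not_lt.1 hc) (h.small' x hx)
  obtain ⟨F, hF, hF'⟩ := hY.blowup x hx2.ge (hY.regular x hx2.le)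
  rw [hx2] at hF'
  obtain ⟨h2, h3⟩ := disc_lt' hT s (i := i) (F := F) (by rwa [hF])
  have h4 := h1 i hi (a := F) ⟨hs i _ h2, by push_cast at hF'; linarith⟩
  have h5 := h4.2
  push_cast at hF'
  linarith

lemma codim_zero_two_le (hs : ∀ i, ∀ x ∈ s.E i, 2 ≤ T.codim (s.X i) x) {i : ℕ} {F : T.Div} (h : 2 ≤ T.codim (s.X i) (T.center (s.X i) F)) :
    2 ≤ T.codim (s.X 0) (T.center (s.X 0) F) := by
  induction i with
  | zero => exact h
  | succ i ih => exact ih (codim_two_le hT s hs h)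

/-- Only finitely many flips such that `E'` contains a singular point of codimension three. -/
lemma regular_E' (hs : ∀ i, ∀ x ∈ s.E i, 2 ≤ T.codim (s.X i) x) : ∃ N, ∀ i ≥ N, ∀ x ∈ s.E' i, T.codim (s.X (i + 1)) x = 3 →
    T.Regular (s.X (i + 1)) x := by
  by_contra hcon
  push Not at hcon
  obtain ⟨F, hF⟩ := pigeon (finite_lt_one hT (s.X 0))
    (fun i F => ∃ r : ℕ, 1 ≤ r ∧ T.center (s.X (i + 1)) F ∈ s.E' i ∧
      T.disc (s.X (i + 1)) F = 1 / (r : ℝ)) (by
    intro N
    obtain ⟨i, hi, x, hx, hx3, hxr⟩ := hcon N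
    obtain ⟨F, r, hr, hF, hF'⟩ := (hT.variety (s.X (i + 1))).threefold x hx3 hxr
    have hx' : T.center (s.X (i + 1)) F ∈ s.E' i := by rwa [hF]
    obtain ⟨h2, h3⟩ := disc_lt' hT s hx'
    refine ⟨i, hi, F, ⟨?_, ?_⟩, r, hr, hx', hF'⟩
    · exact codim_zero_two_le hT s hs (hs i _ h2)
    · have h4 : (1 : ℝ) / r ≤ 1 := by
        rw [div_le_one (by exact_mod_cast hr)]
        exact_mod_cast hr
      have h6 := disc_mono hT s F (Nat.zero_le i)
      rw [hF'] at h3
      linarith)
  choose! r hr h1 h2 using fun i (hi : i ∈ {i | ∃ r : ℕ, 1 ≤ r ∧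
    T.center (s.X (i + 1)) F ∈ s.E' i ∧ T.disc (s.X (i + 1)) F = 1 / (r : ℝ)}) => hi
  refine no_infinite hF (fun i => T.disc (s.X (i + 1)) F) r hr (fun i _ j hj hij => ?_) h2
  exact (disc_mono hT s F (by omega : i + 1 ≤ j)).trans_lt (disc_lt' hT s (h1 j hj)).2

/-- If the discrepancy of `F` has not changed then its centre has never been in `E`. -/
lemma codim_of_disc_eq {i : ℕ} {F : T.Div}
    (h : T.disc (s.X i) F = T.disc (s.X 0) F) :
    T.codim (s.X i) (T.center (s.X i) F) = T.codim (s.X 0) (T.center (s.X 0) F) := by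
  induction i with
  | zero => rfl
  | succ i ih =>
    have h1 := disc_mono hT s F (Nat.zero_le i)
    have h2 := disc_succ hT s i F
    have h3 : T.disc (s.X i) F = T.disc (s.X 0) F := by linarith
    have h4 : T.center (s.X i) F ∉ s.E i := fun hc => by
      have := (hT.flip _ _ _ _ (s.flip i)).disc_lt F hc
      linarith
    rw [(hT.flip _ _ _ _ (s.flip i)).codim_eq F h4, ih h3]

/-- Only finitely many flips such that `E` contains a singular point of codimension three. -/
lemma regular_E (hs : ∀ i, ∀ x ∈ s.E i, 2 ≤ T.codim (s.X i) x) : ∃ N, ∀ i ≥ N, ∀ x ∈ s.E i, T.codim (s.X i) x = 3 →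
    T.Regular (s.X i) x := by
  by_contra hcon
  push Not at hcon
  obtain ⟨F, hF⟩ := pigeon ((finite_lt_one hT (s.X 0)).union (finite_le_one hT (s.X 0)))
    (fun i F => ∃ r : ℕ, 1 ≤ r ∧ T.center (s.X i) F ∈ s.E i ∧
      T.disc (s.X i) F = 1 / (r : ℝ)) (by
    intro N
    obtain ⟨i, hi, x, hx, hx3, hxr⟩ := hcon N
    obtain ⟨F, r, hr, hF, hF'⟩ := (hT.variety (s.X i)).threefold x hx3 hxr
    have hx' : T.center (s.X i) F ∈ s.E i := by rwa [hF]
    have h4 : (1 : ℝ) / r ≤ 1 := by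
      rw [div_le_one (by exact_mod_cast hr)]
      exact_mod_cast hr
    have h6 := disc_mono hT s F (Nat.zero_le i)
    refine ⟨i, hi, F, ?_, r, hr, hx', hF'⟩
    rcases lt_or_ge (T.disc (s.X 0) F) 1 with h7 | h7
    · exact Or.inl ⟨codim_zero_two_le hT s hs (hs i _ hx'), h7⟩
    · right
      have h8 : T.disc (s.X i) F = T.disc (s.X 0) F := by linarith
      refine ⟨?_, by linarith⟩
      rw [← codim_of_disc_eq hT s h8, hF, hx3])
  choose! r hr h1 h2 using fun i (hi : i ∈ {i | ∃ r : ℕ, 1 ≤ r ∧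
    T.center (s.X i) F ∈ s.E i ∧ T.disc (s.X i) F = 1 / (r : ℝ)}) => hi
  refine no_infinite hF (fun i => T.disc (s.X i) F) r hr (fun i hi j hj hij => ?_) h2
  exact ((hT.flip _ _ _ _ (s.flip i)).disc_lt F (h1 i hi)).trans_le
    (disc_mono hT s F (by omega : i + 1 ≤ j))

/-- The divisors of discrepancy `< m - 1` whose centres have codimension at least `m` and are not
contained in the bad locus are finitely many if `m ≤ k + 2`. -/
lemma finite_good (X : T.Obj) {k m : ℕ} (hm : 2 ≤ m) (hk : m ≤ k + 2) :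
    {F | m ≤ T.codim X (T.center X F) ∧ T.disc X F < (m : ℝ) - 1 ∧
      T.center X F ∉ Bad T k X}.Finite := by
  obtain ⟨S, hS, h⟩ := (hT.variety X).log_resolution
  refine hS.subset fun F hF => ?_
  by_contra hFS
  obtain ⟨h1, h2, h0⟩ := hF
  rcases h F (by omega) hFS with h3 | ⟨D, -, h4, h4', h5⟩
  · have : (m : ℝ) ≤ T.codim X (T.center X F) := by exact_mod_cast h1
    linarith
  · apply h0
    refine ⟨D, h4, ?_, h4'⟩
    have : (m : ℝ) ≤ k + 2 := by exact_mod_cast hk
    linarith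

/-- Outside the bad locus: the step of the induction. -/
lemma step {k m M : ℕ} (hm : 2 ≤ m) (hk : m ≤ k + 2)
    (hE : ∀ i ≥ M, ∀ x ∈ s.E i, m ≤ T.codim (s.X i) x)
    (hE' : ∀ i ≥ M, ∀ x ∈ s.E' i, m ≤ T.codim (s.X (i + 1)) x)
    (hr : ∀ i ≥ M, ∀ x ∈ s.E' i, T.codim (s.X (i + 1)) x = m → T.Regular (s.X (i + 1)) x)
    (hB : ∀ i ≥ M, Disjoint (s.E i) (Bad T k (s.X i))) :
    ∃ N ≥ M, ∀ i ≥ N, (∀ x ∈ s.E i, m + 1 ≤ T.codim (s.X i) x) ∧
      ∀ x ∈ s.E' i, m + 1 ≤ T.codim (s.X (i + 1)) x := by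
  obtain ⟨N, hN, h1⟩ := eventually_subset
    (fun i => {F | m ≤ T.codim (s.X i) (T.center (s.X i) F) ∧ T.disc (s.X i) F < (m : ℝ) - 1 ∧
      T.center (s.X i) F ∉ Bad T k (s.X i)}) M
    (fun i _ => finite_good hT (s.X i) hm hk)
    (fun i hi F hF => by
      obtain ⟨h1, h2, h3⟩ := hF
      refine ⟨codim_le hT s (hE i hi) h1, (disc_succ hT s i F).trans_lt h2, fun h4 => h3 ?_⟩
      obtain ⟨D, hD1, hD2, hD3⟩ := h4
      have hfl := hT.flip _ _ _ _ (s.flip i)
      have hFE : T.center (s.X i) F ∉ s.E i := fun hc =>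
        Set.disjoint_left.1 (hB i hi) hc ⟨D, hD1, hD2, hD3⟩
      have hDE : T.center (s.X i) D ∉ s.E i := fun hc =>
        Set.disjoint_left.1 (hB i hi) hc ⟨D, hD1, hD2, (hT.variety (s.X i)).refl _⟩
      refine ⟨D, ?_, ?_, ?_⟩
      · rwa [hfl.regular_iff D hDE]
      · rwa [hfl.disc_eq D hDE]
      · rwa [hfl.closure_iff F D hFE hDE])
  have h2 : ∀ i ≥ N, ∀ x ∈ s.E' i, m < T.codim (s.X (i + 1)) x := by
    intro i hi x hx
    by_contra hc
    have hfl := hT.flip _ _ _ _ (s.flip i)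
    have hx2 : T.codim (s.X (i + 1)) x = m :=
      le_antisymm (not_lt.1 hc) (hE' i (by omega) x hx)
    obtain ⟨F, hF, hF'⟩ := (hT.variety (s.X (i + 1))).blowup x (by omega)
      (hr i (by omega) x hx hx2)
    rw [hx2] at hF'
    obtain ⟨h3, h4⟩ := disc_lt' hT s (i := i) (F := F) (by rwa [hF])
    have h5 := h1 i hi (a := F) ⟨hE i (by omega) _ h3, by linarith, fun hc' =>
      Set.disjoint_left.1 (hB i (by omega)) h3 hc'⟩
    have h6 := h5.2.1
    linarith
  obtain ⟨N', hN', h3⟩ := codim_E hT s h2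
  exact ⟨N', by omega, fun i hi => ⟨h3 i hi, h2 i (by omega)⟩⟩

/-- All but finitely many flips have exceptional loci of codimension at least three, and their points
of codimension three are regular. -/
theorem part_one (hs : ∀ i, ∀ x ∈ s.E i, 2 ≤ T.codim (s.X i) x) : ∃ N, ∀ i ≥ N,
    (∀ x ∈ s.E i, 3 ≤ T.codim (s.X i) x ∧ (T.codim (s.X i) x = 3 → T.Regular (s.X i) x)) ∧
    (∀ x ∈ s.E' i, 3 ≤ T.codim (s.X (i + 1)) x ∧
      (T.codim (s.X (i + 1)) x = 3 → T.Regular (s.X (i + 1)) x)) := by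
  obtain ⟨N1, h1⟩ := two_lt_E' hT s hs
  obtain ⟨N2, hN2, h2⟩ := codim_E hT s h1
  obtain ⟨N3, h3⟩ := regular_E' hT s hs
  obtain ⟨N4, h4⟩ := regular_E hT s hs
  refine ⟨max N2 (max N3 N4), fun i hi => ⟨fun x hx => ⟨h2 i ?_ x hx, h4 i ?_ x hx⟩,
    fun x hx => ⟨h1 i ?_ x hx, h3 i ?_ x hx⟩⟩⟩ <;> omega

theorem part_two (hs : ∀ i, ∀ x ∈ s.E i, 2 ≤ T.codim (s.X i) x) (k : ℕ) (h : ∃ M, ∀ i ≥ M, Disjoint (s.E i) (Bad T k (s.X i)) ∧
      ∀ x ∈ s.E' i, 4 ≤ T.codim (s.X (i + 1)) x → T.codim (s.X (i + 1)) x ≤ k + 2 →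
        T.Regular (s.X (i + 1)) x) :
    (∃ N, ∀ i ≥ N, (∀ x ∈ s.E i, k + 3 ≤ T.codim (s.X i) x) ∧
      (∀ x ∈ s.E' i, k + 3 ≤ T.codim (s.X (i + 1)) x)) ∧ 2 * k + 5 ≤ T.n := by
  obtain ⟨M, hM⟩ := h
  obtain ⟨M', hM'⟩ := part_one hT s hs
  have key : ∀ j ≤ k, ∃ N ≥ max M M', ∀ i ≥ N, (∀ x ∈ s.E i, j + 3 ≤ T.codim (s.X i) x) ∧
      (∀ x ∈ s.E' i, j + 3 ≤ T.codim (s.X (i + 1)) x) := by
    intro j
    induction j with
    | zero =>
      intro _
      exact ⟨max M M', le_rfl, fun i hi => ⟨fun x hx => ((hM' i (by omega)).1 x hx).1,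
        fun x hx => ((hM' i (by omega)).2 x hx).1⟩⟩
    | succ j ih =>
      intro hj
      obtain ⟨N, hN, h1⟩ := ih (by omega)
      obtain ⟨N', hN', h2⟩ := step hT s (k := k) (m := j + 3) (M := N) (by omega) (by omega)
        (fun i hi => (h1 i hi).1) (fun i hi => (h1 i hi).2)
        (fun i hi x hx hx' => by
          rcases Nat.eq_zero_or_pos j with h0 | h0
          · exact ((hM' i (by omega)).2 x hx).2 (by omega)
          · exact (hM i (by omega)).2 x hx (by omega) (by omega))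
        (fun i hi => (hM i (by omega)).1)
      exact ⟨N', by omega, fun i hi => h2 i hi⟩
  obtain ⟨N, -, h1⟩ := key k le_rfl
  refine ⟨⟨N, h1⟩, ?_⟩
  have h2 := (hT.flip _ _ _ _ (s.flip N)).dimension (k + 3) (k + 3) (h1 N le_rfl).1 (h1 N le_rfl).2
  omega

/-- If the discrepancy of every divisor takes only finitely many values `< 1` then, for all but finitely many flips,
the centres of the divisors of discrepancy `< 1` are not in `E i`. -/
lemma stable_of_finite (hs : ∀ i, ∀ x ∈ s.E i, 2 ≤ T.codim (s.X i) x)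
    (hfin : ∀ F, {a : ℝ | a < 1 ∧ ∃ i, T.disc (s.X i) F = a}.Finite) :
    ∃ N, ∀ i ≥ N, ∀ F, 2 ≤ T.codim (s.X i) (T.center (s.X i) F) → T.disc (s.X i) F < 1 →
      T.center (s.X i) F ∉ s.E i := by
  by_contra hcon
  push Not at hcon
  obtain ⟨F, hF⟩ := pigeon (finite_lt_one hT (s.X 0))
    (fun i F => T.disc (s.X i) F < 1 ∧ T.center (s.X i) F ∈ s.E i) (by
    intro N
    obtain ⟨i, hi, F, h1, h2, h3⟩ := hcon N
    exact ⟨i, hi, F, ⟨codim_zero_two_le hT s hs h1,
      (disc_mono hT s F (Nat.zero_le i)).trans_lt h2⟩, h2, h3⟩)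
  have hmaps : Set.MapsTo (fun i => T.disc (s.X i) F)
      {i | T.disc (s.X i) F < 1 ∧ T.center (s.X i) F ∈ s.E i}
      {a : ℝ | a < 1 ∧ ∃ i, T.disc (s.X i) F = a} := fun i hi => ⟨hi.1, i, rfl⟩
  have key : ∀ i ∈ {i | T.disc (s.X i) F < 1 ∧ T.center (s.X i) F ∈ s.E i}, ∀ j, i < j →
      T.disc (s.X i) F < T.disc (s.X j) F := fun i hi j hij =>
    ((hT.flip _ _ _ _ (s.flip i)).disc_lt F hi.2).trans_le (disc_mono hT s F hij)
  refine hF (Set.Finite.of_injOn hmaps ?_ (hfin F))
  intro i hi j hj hij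
  by_contra hne
  rcases lt_or_gt_of_ne hne with h1 | h1
  · exact (key i hi j h1).ne hij
  · exact (key j hj i h1).ne hij.symm

/-- The exceptional locus `E' i` is infinitely often at least as large as `E i`. -/
theorem part_six (M : ℕ) : ∃ i ≥ M, ∃ y ∈ s.E' i,
    (∀ x ∈ s.E i, T.codim (s.X (i + 1)) y ≤ T.codim (s.X i) x) ∧
      2 * T.codim (s.X (i + 1)) y ≤ T.n + 1 := by
  by_contra hcon
  push Not at hcon
  have key : ∀ c : ℕ, ∃ N ≥ M, ∀ i ≥ N, ∀ y ∈ s.E' i, c < T.codim (s.X (i + 1)) y := by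
    intro c
    induction c with
    | zero =>
      exact ⟨M, le_rfl, fun i _ y hy => by
        have := (hT.flip _ _ _ _ (s.flip i)).small' y hy
        omega⟩
    | succ c ih =>
      obtain ⟨N, hN, h1⟩ := ih
      obtain ⟨N', hN', h2⟩ := codim_E hT s h1
      refine ⟨N', by omega, fun i hi y hy => ?_⟩
      by_contra hc
      have hy1 := h1 i (by omega) y hy
      have hy2 : T.codim (s.X (i + 1)) y = c + 1 := by omega
      have h3 := hcon i (by omega) y hy fun x hx => by
        have := h2 i hi x hx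
        omega
      have h4 := (hT.flip _ _ _ _ (s.flip i)).dimension (c + 1) (c + 1)
        (fun x hx => h2 i hi x hx) (fun x hx => h1 i (by omega) x hx)
      omega
  obtain ⟨N, -, h1⟩ := key (T.n + 1)
  have h4 := (hT.flip _ _ _ _ (s.flip N)).dimension 0 (T.n + 2) (fun _ _ => Nat.zero_le _)
    (fun x hx => h1 N le_rfl x hx)
  omega

/-- In dimension at most six the loci `E i` meet infinitely often the centres of divisors of
discrepancy `< 1`. -/
theorem part_four (hs : ∀ i, ∀ x ∈ s.E i, 2 ≤ T.codim (s.X i) x) (hn : T.n ≤ 6) (M : ℕ) : ∃ i ≥ M, ∃ F,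
    2 ≤ T.codim (s.X i) (T.center (s.X i) F) ∧ T.disc (s.X i) F < 1 ∧
      ∃ x ∈ s.E i, T.InClosure (s.X i) x (T.center (s.X i) F) := by
  by_contra hcon
  push Not at hcon
  have h1 := part_two hT s hs 1 ⟨M, fun i hi => ⟨?_, fun x _ hx hx' => by omega⟩⟩
  · omega
  · rw [Set.disjoint_left]
    rintro x hx ⟨F, hF1, hF2, hF3⟩
    refine hcon i hi F ?_ (by simpa using hF2) x hx hF3
    by_contra hc
    exact hF1 ((hT.variety _).regular _ (by omega))

end proofs

section final

variable {T : Varieties.{u}} (hT : Facts T) (s : FlipSequence T)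

include hT

/-- Only finitely many contractions are not small. -/
lemma exists_small : ∃ M, ∀ i ≥ M, ∀ x ∈ s.E i, 2 ≤ T.codim (s.X i) x := by
  obtain ⟨M, -, h⟩ := codim_E hT s (c := 1) (M := 0) fun i _ x hx =>
    (hT.flip _ _ _ _ (s.flip i)).small' x hx
  exact ⟨M, fun i hi x hx => h i hi x hx⟩

theorem gen_one : ∃ N, ∀ i ≥ N,
    (∀ x ∈ s.E i, 3 ≤ T.codim (s.X i) x ∧ (T.codim (s.X i) x = 3 → T.Regular (s.X i) x)) ∧
    (∀ x ∈ s.E' i, 3 ≤ T.codim (s.X (i + 1)) x ∧
      (T.codim (s.X (i + 1)) x = 3 → T.Regular (s.X (i + 1)) x)) := by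
  obtain ⟨M, hM⟩ := exists_small hT s
  obtain ⟨N, hN⟩ := part_one hT (s.shift M) fun i x hx => hM (M + i) (by omega) x hx
  refine ⟨M + N, fun i hi => ?_⟩
  obtain ⟨j, rfl⟩ := Nat.exists_eq_add_of_le (show M ≤ i by omega)
  exact hN j (by omega)

theorem gen_two (k : ℕ) (h : ∃ M, ∀ i ≥ M, Disjoint (s.E i) (Bad T k (s.X i)) ∧
      ∀ x ∈ s.E' i, 4 ≤ T.codim (s.X (i + 1)) x → T.codim (s.X (i + 1)) x ≤ k + 2 →
        T.Regular (s.X (i + 1)) x) :
    (∃ N, ∀ i ≥ N, (∀ x ∈ s.E i, k + 3 ≤ T.codim (s.X i) x) ∧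
      (∀ x ∈ s.E' i, k + 3 ≤ T.codim (s.X (i + 1)) x)) ∧ 2 * k + 5 ≤ T.n := by
  obtain ⟨M, hM⟩ := exists_small hT s
  obtain ⟨M', hM'⟩ := h
  obtain ⟨⟨N, hN⟩, hn⟩ := part_two hT (s.shift M) (fun i x hx => hM (M + i) (by omega) x hx) k
    ⟨M', fun i hi => hM' (M + i) (by omega)⟩
  refine ⟨⟨M + N, fun i hi => ?_⟩, hn⟩
  obtain ⟨j, rfl⟩ := Nat.exists_eq_add_of_le (show M ≤ i by omega)
  exact hN j (by omega)

theorem gen_three (hs : ∀ i, ∀ x ∈ s.E i, 2 ≤ T.codim (s.X i) x)
    (h : ∀ F, 2 ≤ T.codim (s.X 0) (T.center (s.X 0) F) → 1 ≤ T.disc (s.X 0) F) :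
    (∃ N, ∀ i ≥ N, (∀ x ∈ s.E i, 4 ≤ T.codim (s.X i) x) ∧
      (∀ x ∈ s.E' i, 4 ≤ T.codim (s.X (i + 1)) x)) ∧ 7 ≤ T.n := by
  have h1 : ∀ i, Bad T 1 (s.X i) = ∅ := by
    intro i
    rw [Set.eq_empty_iff_forall_notMem]
    rintro x ⟨F, hF1, hF2, -⟩
    have h2 : 2 ≤ T.codim (s.X i) (T.center (s.X i) F) := by
      by_contra hc
      exact hF1 ((hT.variety _).regular _ (by omega))
    have h3 := h F (codim_zero_two_le hT s hs h2)
    have h4 := disc_mono hT s F (Nat.zero_le i)
    push_cast at hF2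
    linarith
  exact part_two hT s hs 1 ⟨0, fun i _ => ⟨by rw [h1 i]; exact disjoint_bot_right,
    fun x _ hx hx' => by omega⟩⟩

theorem gen_four (hn : T.n ≤ 6) (N : ℕ) : ∃ i ≥ N, ∃ F,
    2 ≤ T.codim (s.X i) (T.center (s.X i) F) ∧ T.disc (s.X i) F < 1 ∧
      ∃ x ∈ s.E i, T.InClosure (s.X i) x (T.center (s.X i) F) := by
  obtain ⟨M, hM⟩ := exists_small hT s
  obtain ⟨j, hj, h⟩ := part_four hT (s.shift M) (fun i x hx => hM (M + i) (by omega) x hx) hn N
  exact ⟨M + j, by omega, h⟩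

theorem gen_five (hn : T.n ≤ 6) (hfin : ∀ F, {a : ℝ | a < 1 ∧ ∃ i, T.disc (s.X i) F = a}.Finite) (N : ℕ) :
    ∃ i ≥ N, ∃ F, 2 ≤ T.codim (s.X i) (T.center (s.X i) F) ∧ T.disc (s.X i) F < 1 ∧
      T.center (s.X i) F ∉ s.E i ∧ ∃ x ∈ s.E i, T.InClosure (s.X i) x (T.center (s.X i) F) := by
  obtain ⟨M, hM⟩ := exists_small hT s
  have hs : ∀ i, ∀ x ∈ (s.shift M).E i, 2 ≤ T.codim ((s.shift M).X i) x :=
    fun i x hx => hM (M + i) (by omega) x hx
  obtain ⟨N', hN'⟩ := stable_of_finite hT (s.shift M) hs fun F =>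
    (hfin F).subset fun a ⟨ha, i, hi⟩ => ⟨ha, M + i, hi⟩
  obtain ⟨j, hj, F, h1, h2, h3⟩ := part_four hT (s.shift M) hs hn (max N N')
  exact ⟨M + j, by omega, F, h1, h2, hN' j (by omega) F h1 h2, h3⟩

end final

end Pool.Agent.Helper10.FL
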